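import Mathlib
import Pool.Agent.Helper398.EEFinal
import Pool.Agent.Helper398.Bridge

set_option autoImplicit false

namespace Pool.Agent.Results.MP_7710ee_co.CyclicForLargeM

/-- `Σ* A`: the set of sums of the nonempty subsets of `A` (each element used at most once). -/
def SigmaStar {G : Type} [AddCommGroup G] (A : Finset G) : Set G :=
  {s | ∃ B : Finset G, B ⊆ A ∧ B.Nonempty ∧ ∑ b ∈ B, b = s}

/-- `ρ(G, m)`: the minimum of `|Σ* A|` over the `m`-element subsets `A` of `G` with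
`0 ∉ Σ* A`; it is `⊤ = ∞` when there is no such `A` (infimum over the empty family in `ℕ∞`). -/
noncomputable def rho (G : Type) [AddCommGroup G] (m : ℕ) : ℕ∞ :=
  ⨅ A : {A : Finset G // A.card = m ∧ (0 : G) ∉ SigmaStar A}, (SigmaStar A.1).encard

/-- `f(m)`: the minimum of `ρ(G, m)` over all finite abelian groups `G`. -/
noncomputable def f (m : ℕ) : ℕ∞ :=
  ⨅ (G : Type) (_ : AddCommGroup G) (_ : Finite G), rho G m

theorem SigmaStar_map {G H : Type} [AddCommGroup G] [AddCommGroup H] (e : G ≃+ H) (A : Finset G) :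
    SigmaStar (A.map e.toEquiv.toEmbedding) = e '' SigmaStar A := by
  classical
  ext s
  constructor
  · rintro ⟨B, hB, hne, rfl⟩
    obtain ⟨C, hC, rfl⟩ := Finset.subset_map_iff.1 hB
    refine ⟨∑ c ∈ C, c, ⟨C, hC, ?_, rfl⟩, ?_⟩
    · simpa using hne
    · rw [map_sum, Finset.sum_map]
      rfl
  · rintro ⟨t, ⟨C, hC, hne, rfl⟩, rfl⟩
    refine ⟨C.map e.toEquiv.toEmbedding, Finset.map_subset_map.2 hC, ?_, ?_⟩
    · simpa using hne
    · rw [map_sum, Finset.sum_map]
      rfl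

theorem rho_le_of_equiv {G H : Type} [AddCommGroup G] [AddCommGroup H] (e : G ≃+ H) (m : ℕ) :
    rho H m ≤ rho G m := by
  refine le_iInf ?_
  rintro ⟨A, hA, h0⟩
  have h1 : (0 : H) ∉ SigmaStar (A.map e.toEquiv.toEmbedding) := by
    rw [SigmaStar_map]
    rintro ⟨t, ht, ht0⟩
    rw [map_eq_zero_iff e e.injective] at ht0
    rw [ht0] at ht
    exact h0 ht
  refine (iInf_le _ (⟨A.map e.toEquiv.toEmbedding, ?_, h1⟩ :
    {A : Finset H // A.card = m ∧ (0 : H) ∉ SigmaStar A})).trans ?_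
  · rw [Finset.card_map, hA]
  · simp only
    rw [SigmaStar_map, Function.Injective.encard_image e.injective]


/-- The example `{(1,0),…,(a,0)} ∪ {(0,1),…,(b,1)}` in `Z_N × Z_2` (as in Helper398, for any `N > m²`). -/
theorem example_gen (m N : ℕ) (hN : m ^ 2 + 1 ≤ N) : ∃ A : Finset (ZMod N × ZMod 2), A.card = m ∧
    (∀ B ⊆ A, B.Nonempty → ∑ b ∈ B, b ≠ 0) ∧ A.subsetSum.card ≤ m ^ 2 / 2 + 2 := by
  classical
  rcases Nat.eq_zero_or_pos m with hm0 | hm0
  · subst hm0
    refine ⟨∅, rfl, ?_, ?_⟩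
    · intro B hB hne
      rw [Finset.subset_empty] at hB
      rw [hB] at hne
      exact absurd hne (by simp)
    · have hne0 : NeZero N := ⟨by omega⟩
      have h9 : (∅ : Finset (ZMod N × ZMod 2)).subsetSum.card ≤ 1 := by
        rw [Finset.card_le_one]
        intro x hx y hy
        rw [Finset.mem_subsetSum_iff] at hx hy
        obtain ⟨B, hB, rfl⟩ := hx
        obtain ⟨C, hC, rfl⟩ := hy
        rw [Finset.subset_empty.1 hB, Finset.subset_empty.1 hC]
      omega
  have hNm : m < N := by nlinarith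
  have : NeZero N := ⟨by omega⟩
  obtain ⟨a, ha⟩ : ∃ a, a = (m - 1) / 2 := ⟨_, rfl⟩
  obtain ⟨b, hb⟩ : ∃ b, b = m / 2 := ⟨_, rfl⟩
  obtain ⟨I, hI⟩ : ∃ I : Finset (ℕ × ℕ), I = (Finset.Icc 1 a).image (fun i => (i, 0)) ∪
    (Finset.range (b + 1)).image (fun i => (i, 1)) := ⟨_, rfl⟩
  obtain ⟨φ, hφ⟩ : ∃ φ : ℕ × ℕ → ZMod N × ZMod 2, φ = fun p => ((p.1 : ZMod N), (p.2 : ZMod 2)) :=
    ⟨_, rfl⟩
  have hmemI : ∀ p ∈ I, p.1 < N ∧ p.2 < 2 ∧ (p.2 = 0 → 1 ≤ p.1) := by
    intro p hp
    rw [hI, Finset.mem_union, Finset.mem_image, Finset.mem_image] at hp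
    rcases hp with ⟨i, hi, rfl⟩ | ⟨i, hi, rfl⟩
    · rw [Finset.mem_Icc] at hi
      exact ⟨by omega, by norm_num, fun _ => hi.1⟩
    · rw [Finset.mem_range] at hi
      exact ⟨by simp only; omega, by norm_num, by simp⟩
  have hinj : ∀ p ∈ I, ∀ p' ∈ I, φ p = φ p' → p = p' := by
    intro p hp p' hp' h
    rw [hφ] at h
    simp only [Prod.mk.injEq] at h
    have h1 := hmemI p hp
    have h2 := hmemI p' hp'
    have h3 : p.1 = p'.1 := by
      have := congrArg ZMod.val h.1
      rwa [ZMod.val_natCast_of_lt h1.1, ZMod.val_natCast_of_lt h2.1] at this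
    have h4 : p.2 = p'.2 := by
      have := congrArg ZMod.val h.2
      rwa [ZMod.val_natCast_of_lt h1.2.1, ZMod.val_natCast_of_lt h2.2.1] at this
    exact Prod.ext h3 h4
  have hdisj : Disjoint ((Finset.Icc 1 a).image (fun i => ((i, 0) : ℕ × ℕ)))
      ((Finset.range (b + 1)).image (fun i => ((i, 1) : ℕ × ℕ))) := by
    rw [Finset.disjoint_left]
    intro p hp hp'
    rw [Finset.mem_image] at hp hp'
    obtain ⟨i, _, rfl⟩ := hp
    obtain ⟨j, _, hj⟩ := hp'
    simp at hj
  have hIcard : I.card = m := by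
    rw [hI, Finset.card_union_of_disjoint hdisj, Finset.card_image_of_injective,
      Finset.card_image_of_injective, Nat.card_Icc, Finset.card_range]
    · omega
    · intro i j h; simpa using h
    · intro i j h; simpa using h
  -- the total first weight
  have htri : ∀ n : ℕ, 2 * ∑ i ∈ Finset.range (n + 1), i = n * (n + 1) := by
    intro n
    have := Finset.sum_range_id_mul_two (n + 1)
    rw [Nat.add_sub_cancel] at this
    have e : (n + 1) * n = n * (n + 1) := mul_comm _ _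
    omega
  have htri1 : 2 * ∑ i ∈ Finset.Icc 1 a, i = a * (a + 1) := by
    rw [← htri a]
    have h2 : Finset.range (a + 1) = insert 0 (Finset.Icc 1 a) := by
      ext i
      simp only [Finset.mem_range, Finset.mem_insert, Finset.mem_Icc]
      omega
    rw [h2, Finset.sum_insert (by simp), zero_add]
  obtain ⟨S, hS⟩ : ∃ S, S = ∑ p ∈ I, p.1 := ⟨_, rfl⟩
  have hS2 : 2 * S = a * (a + 1) + b * (b + 1) := by
    rw [hS, hI, Finset.sum_union hdisj, Finset.sum_image (by intro i _ j _ h; simpa using h),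
      Finset.sum_image (by intro i _ j _ h; simpa using h), mul_add, htri, htri1]
  have hS3 : 2 * S = m ^ 2 / 2 := by
    rw [hS2]
    rcases Nat.even_or_odd' m with ⟨c, hc | hc⟩
    · have h1 : b = c := by omega
      have h2 : a = c - 1 := by omega
      obtain ⟨e, rfl⟩ : ∃ e, c = e + 1 := ⟨c - 1, by omega⟩
      rw [h1, h2, hc, Nat.add_sub_cancel]
      have : (2 * (e + 1)) ^ 2 = 2 * (e * (e + 1) + (e + 1) * (e + 1 + 1)) := by ring
      rw [this, Nat.mul_div_cancel_left _ (by norm_num)]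
    · have h1 : b = c := by omega
      have h2 : a = c := by omega
      rw [h1, h2, hc]
      have : (2 * c + 1) ^ 2 = 2 * (c * (c + 1) + c * (c + 1)) + 1 := by ring
      rw [this]
      omega
  have hSN : S < N := by omega
  -- sums over subsets
  have hsub : ∀ J ⊆ I, (∑ p ∈ J, φ p).1 = ((∑ p ∈ J, p.1 : ℕ) : ZMod N) ∧
      (∑ p ∈ J, φ p).2 = ((∑ p ∈ J, p.2 : ℕ) : ZMod 2) := by
    intro J _
    rw [Prod.fst_sum, Prod.snd_sum, hφ]
    push_cast
    exact ⟨rfl, rfl⟩
  have hpull : ∀ B ⊆ I.image φ, ∃ J ⊆ I, B = J.image φ ∧ ∑ b ∈ B, b = ∑ p ∈ J, φ p := by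
    intro B hB
    obtain ⟨J, hJ, rfl⟩ := Finset.subset_image_iff.1 hB
    refine ⟨J, hJ, rfl, ?_⟩
    rw [Finset.sum_image (fun p hp p' hp' h => hinj p (hJ hp) p' (hJ hp') h)]
  refine ⟨I.image φ, ?_, ?_, ?_⟩
  · rw [Finset.card_image_of_injOn (fun p hp p' hp' h => hinj p hp p' hp' h), hIcard]
  · intro B hB hne hsum
    obtain ⟨J, hJ, hBJ, hJs⟩ := hpull B hB
    rw [hJs] at hsum
    obtain ⟨h1, h2⟩ := hsub J hJ
    rw [hsum] at h1 h2
    have hJne : J.Nonempty := by
      rw [hBJ] at hne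
      exact Finset.image_nonempty.1 hne
    have hle : ∑ p ∈ J, p.1 ≤ S := by rw [hS]; exact Finset.sum_le_sum_of_subset hJ
    have h3 : ∑ p ∈ J, p.1 = 0 := by
      have := congrArg ZMod.val h1
      rw [ZMod.val_natCast_of_lt (by omega)] at this
      rw [← this]; simp
    have h4 : ∀ p ∈ J, p = (0, 1) := by
      intro p hp
      have h5 : p.1 = 0 := by
        have := Finset.sum_eq_zero_iff.1 h3 p hp
        exact this
      have h6 := hmemI p (hJ hp)
      have h7 : p.2 = 1 := by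
        rcases Nat.eq_zero_or_pos p.2 with h | h
        · have := h6.2.2 h
          omega
        · omega
      exact Prod.ext h5 h7
    have h5 : J = {(0, 1)} := by
      ext p
      rw [Finset.mem_singleton]
      constructor
      · exact h4 p
      · rintro rfl
        obtain ⟨p', hp'⟩ := hJne
        rw [h4 p' hp'] at hp'
        exact hp'
    rw [h5] at h2
    simp at h2
  · have hsubset : (I.image φ).subsetSum ⊆
        (Finset.range (S + 1) ×ˢ (Finset.univ : Finset (ZMod 2))).image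
          (fun p => ((p.1 : ZMod N), p.2)) := by
      intro x hx
      rw [Finset.mem_subsetSum_iff] at hx
      obtain ⟨B, hB, rfl⟩ := hx
      obtain ⟨J, hJ, hBJ, hJs⟩ := hpull B hB
      obtain ⟨h1, h2⟩ := hsub J hJ
      rw [Finset.mem_image]
      refine ⟨(∑ p ∈ J, p.1, (∑ b ∈ B, b).2), ?_, ?_⟩
      · rw [Finset.mem_product, Finset.mem_range]
        refine ⟨?_, Finset.mem_univ _⟩
        have : ∑ p ∈ J, p.1 ≤ S := by rw [hS]; exact Finset.sum_le_sum_of_subset hJ
        simp only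
        omega
      · apply Prod.ext
        · simp only
          rw [hJs, h1]
        · rfl
    have h1 := (Finset.card_le_card hsubset).trans Finset.card_image_le
    rw [Finset.card_product, Finset.card_range, Finset.card_univ, ZMod.card] at h1
    omega


theorem rho_cyclic_le (m N : ℕ) (hN : m ^ 2 + 1 ≤ N) (hodd : Odd N) :
    rho (ZMod (N * 2)) m ≤ ((m ^ 2 / 2 + 1 : ℕ) : ℕ∞) := by
  classical
  obtain ⟨A, hA, hA2, hA3⟩ := example_gen m N hN
  have : NeZero N := ⟨by omega⟩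
  have h0 : (0 : ZMod N × ZMod 2) ∉ SigmaStar A := by
    rintro ⟨B, hB, hne, hs⟩
    exact hA2 B hB hne hs
  have h1 := Pool.Agent.Helper398.ncard_bridge A (SigmaStar A) (fun s => Iff.rfl) h0
  have h2 : rho (ZMod N × ZMod 2) m ≤ (SigmaStar A).encard :=
    iInf_le (fun A : {A : Finset (ZMod N × ZMod 2) //
      A.card = m ∧ (0 : ZMod N × ZMod 2) ∉ SigmaStar A} => (SigmaStar A.1).encard)
      ⟨A, hA, h0⟩
  have hcop : Nat.Coprime N 2 := Nat.coprime_two_right.2 hodd
  have h4 := rho_le_of_equiv (ZMod.chineseRemainder hcop).symm.toAddEquiv m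
  refine (h4.trans h2).trans ?_
  rw [← Set.Finite.cast_ncard_eq (Set.toFinite _)]
  have h3 : (SigmaStar A).ncard ≤ m ^ 2 / 2 + 1 := by omega
  exact_mod_cast h3

theorem f_le_rho (m n : ℕ) (hn : 0 < n) : f m ≤ rho (ZMod n) m := by
  have : NeZero n := ⟨hn.ne'⟩
  refine (iInf_le _ (ZMod n)).trans ?_
  refine (iInf_le _ (inferInstance : AddCommGroup (ZMod n))).trans ?_
  exact iInf_le _ (inferInstance : Finite (ZMod n))

/-- For every sufficiently large `m` the minimum `f(m)` is attained in a cyclic group (indeed in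
every cyclic group of order `2N` with `N > m²` odd), and `f(m) = ⌊m²/2⌋ + 1`. -/
theorem result :
    ∃ M : ℕ, ∀ m : ℕ, M ≤ m →
      (∃ n : ℕ, 0 < n ∧ f m = rho (ZMod n) m) ∧
      (∀ N : ℕ, Odd N → m ^ 2 + 1 ≤ N → f m = rho (ZMod (N * 2)) m) ∧
      f m = ((m ^ 2 / 2 + 1 : ℕ) : ℕ∞) := by
  classical
  obtain ⟨M, hM⟩ := Pool.Agent.Helper398.main_exact
  have key : ∀ m : ℕ, M ≤ m → ((m ^ 2 / 2 + 1 : ℕ) : ℕ∞) ≤ f m := by
    intro m hm
    refine le_iInf fun G => le_iInf fun _ => le_iInf fun _ => le_iInf ?_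
    rintro ⟨A, hA, h0⟩
    have h1 := Pool.Agent.Helper398.ncard_bridge A (SigmaStar A) (fun s => Iff.rfl) h0
    have h2 := hM G A
      (Pool.Agent.Helper398.ZSF_of_notMem A (SigmaStar A) (fun s => Iff.rfl) h0) (by omega)
    rw [hA] at h2
    show _ ≤ (SigmaStar A).encard
    rw [← Set.Finite.cast_ncard_eq (Set.toFinite _)]
    have h3 : m ^ 2 / 2 + 1 ≤ (SigmaStar A).ncard := by omega
    exact_mod_cast h3
  refine ⟨M, ?_⟩
  intro m hm
  have h1 : ∀ N : ℕ, Odd N → m ^ 2 + 1 ≤ N → f m = rho (ZMod (N * 2)) m := by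
    intro N hodd hN
    exact le_antisymm (f_le_rho m (N * 2) (by omega)) ((rho_cyclic_le m N hN hodd).trans (key m hm))
  have hodd : Odd (2 * m ^ 2 + 1) := ⟨m ^ 2, rfl⟩
  have h2 := h1 (2 * m ^ 2 + 1) hodd (by omega)
  refine ⟨⟨(2 * m ^ 2 + 1) * 2, by omega, h2⟩, h1, ?_⟩
  apply le_antisymm _ (key m hm)
  rw [h2]
  exact rho_cyclic_le m (2 * m ^ 2 + 1) (by omega) hodd

end Pool.Agent.Results.MP_7710ee_co.CyclicForLargeM
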